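import Mathlib

set_option linter.style.longLine false
set_option linter.unusedVariables false

namespace Pool.Agent.Results.MP_50aa38_lc.NotFirstOrder

open FirstOrder

/-! ### Contact algebras and the regularity axiom -/

/-- `C` is a contact relation on the Boolean algebra `B`: the axioms (C1)-(C4). -/
structure IsContact {B : Type} [BooleanAlgebra B] (C : B → B → Prop) : Prop where
  ne_bot : ∀ a b, C a b → a ≠ ⊥ ∧ b ≠ ⊥
  sup_iff : ∀ a b c, C a (b ⊔ c) ↔ C a b ∨ C a c
  symm : ∀ a b, C a b → C b a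
  of_inf : ∀ a b, a ⊓ b ≠ ⊥ → C a b

/-- Non-tangential inclusion: `a` is not in contact with the complement of `b`. -/
def Inside {B : Type} [BooleanAlgebra B] (C : B → B → Prop) (a b : B) : Prop := ¬ C a bᶜ

/-- Clans of a contact algebra. -/
structure IsClan {B : Type} [BooleanAlgebra B] (C : B → B → Prop) (G : Set B) : Prop where
  nonempty : G.Nonempty
  bot_notMem : ⊥ ∉ G
  up : ∀ a b, a ∈ G → a ≤ b → b ∈ G
  prime : ∀ a b, a ⊔ b ∈ G → a ∈ G ∨ b ∈ G
  contact : ∀ a ∈ G, ∀ b ∈ G, C a b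

/-- Clusters of a contact algebra. -/
structure IsCluster {B : Type} [BooleanAlgebra B] (C : B → B → Prop) (G : Set B) : Prop where
  clan : IsClan C G
  max : ∀ a, (∀ b ∈ G, C a b) → a ∈ G

/-- Co-ends of a contact algebra. -/
structure IsCoEnd {B : Type} [BooleanAlgebra B] (C : B → B → Prop) (G : Set B) : Prop where
  cluster : IsCluster C G
  round : ∀ a, a ∉ G → ∃ b, b ∉ G ∧ Inside C a b

/-- The regularity axiom (Reg). -/
def Reg {B : Type} [BooleanAlgebra B] (C : B → B → Prop) : Prop :=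
  ∀ a b, C a b → ∃ G : Set B, IsCoEnd C G ∧ a ∈ G ∧ b ∈ G

/-! ### The first-order language -/

/-- The function symbols `0, 1, *, ∨, ∧`. -/
inductive Fn : ℕ → Type
  | zero : Fn 0
  | one : Fn 0
  | star : Fn 1
  | join : Fn 2
  | meet : Fn 2

/-- The relation symbol `C` of contact. -/
inductive Rl : ℕ → Type
  | contact : Rl 2

/-- The first-order language of contact algebras. -/
abbrev CL : Language := ⟨Fn, Rl⟩

/-- The interpretation of the function symbols in a Boolean algebra. -/
def fnMap {B : Type} [BooleanAlgebra B] : ∀ {n : ℕ}, Fn n → (Fin n → B) → B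
  | _, Fn.zero, _ => ⊥
  | _, Fn.one, _ => ⊤
  | _, Fn.star, v => (v 0)ᶜ
  | _, Fn.join, v => v 0 ⊔ v 1
  | _, Fn.meet, v => v 0 ⊓ v 1

/-- The interpretation of the relation symbol. -/
def rlMap {B : Type} (C : B → B → Prop) : ∀ {n : ℕ}, Rl n → (Fin n → B) → Prop
  | _, Rl.contact, v => C (v 0) (v 1)

/-- A Boolean algebra with a binary relation `C` as a first-order structure. -/
@[reducible] def str {B : Type} [BooleanAlgebra B] (C : B → B → Prop) : CL.Structure B where
  funMap := fun f v => fnMap f v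
  RelMap := fun r v => rlMap C r v

/-! ### Countable algebras with enough clopen elements satisfy (Reg) -/

/-- The first-order condition behind the proof. -/
def Dag {B : Type} [BooleanAlgebra B] (C : B → B → Prop) : Prop :=
  ∀ a b x y, C a b → ¬ C x yᶜ →
    ∃ n, ¬ C n nᶜ ∧ (n ⊓ x = ⊥ ∨ n ⊓ yᶜ = ⊥) ∧ C (a ⊓ n) (b ⊓ n)

section Countable

variable {B : Type} [BooleanAlgebra B] {C : B → B → Prop}

theorem IsContact.mono_right (h : IsContact C) {a b c : B} (hbc : b ≤ c) (hab : C a b) : C a c := by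
  have : c = b ⊔ c := (sup_eq_right.2 hbc).symm
  rw [this, h.sup_iff]
  exact Or.inl hab

theorem IsContact.mono_left (h : IsContact C) {a b c : B} (hac : a ≤ c) (hab : C a b) : C c b :=
  h.symm _ _ (h.mono_right hac (h.symm _ _ hab))

theorem IsContact.clopen_inf (h : IsContact C) {m n : B} (hm : ¬ C m mᶜ) (hn : ¬ C n nᶜ) :
    ¬ C (m ⊓ n) (m ⊓ n)ᶜ := by
  intro hc
  rw [compl_inf, h.sup_iff] at hc
  rcases hc with hc | hc
  · exact hm (h.mono_left inf_le_left hc)
  · exact hn (h.mono_left inf_le_right hc)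

theorem reg_of_countable [Countable B] (h : IsContact C) (hD : Dag C) : Reg C := by
  intro a b hab
  obtain ⟨e, he⟩ := exists_surjective_nat (B × B)
  -- one step
  have step : ∀ (m : {m : B // ¬ C m mᶜ ∧ C (a ⊓ m) (b ⊓ m)}) (q : B × B),
      ∃ m' : {m : B // ¬ C m mᶜ ∧ C (a ⊓ m) (b ⊓ m)}, m'.1 ≤ m.1 ∧
        (¬ C q.1 q.2ᶜ → (m'.1 ⊓ q.1 = ⊥ ∨ m'.1 ⊓ q.2ᶜ = ⊥)) := by
    intro m q
    by_cases hq : C q.1 q.2ᶜ
    · exact ⟨m, le_rfl, fun h' => absurd hq h'⟩
    · obtain ⟨n, hn, hn2, hn3⟩ := hD (a ⊓ m.1) (b ⊓ m.1) q.1 q.2 m.2.2 hq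
      refine ⟨⟨m.1 ⊓ n, h.clopen_inf m.2.1 hn, ?_⟩, inf_le_left, fun _ => ?_⟩
      · simpa only [inf_assoc] using hn3
      · rcases hn2 with h2 | h2
        · left
          apply le_bot_iff.1
          calc m.1 ⊓ n ⊓ q.1 ≤ n ⊓ q.1 := inf_le_inf_right _ inf_le_right
            _ = ⊥ := h2
            _ ≤ ⊥ := le_rfl
        · right
          apply le_bot_iff.1
          calc m.1 ⊓ n ⊓ q.2ᶜ ≤ n ⊓ q.2ᶜ := inf_le_inf_right _ inf_le_right
            _ = ⊥ := h2
            _ ≤ ⊥ := le_rfl
  choose nx hnx1 hnx2 using step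
  have hstart : ¬ C (⊤ : B) ⊤ᶜ ∧ C (a ⊓ ⊤) (b ⊓ ⊤) := by
    refine ⟨fun hc => (h.ne_bot _ _ hc).2 (by simp), by simpa using hab⟩
  let m : ℕ → {m : B // ¬ C m mᶜ ∧ C (a ⊓ m) (b ⊓ m)} :=
    fun k => Nat.rec ⟨⊤, hstart⟩ (fun i r => nx r (e i)) k
  have hm_succ : ∀ i, m (i + 1) = nx (m i) (e i) := fun i => rfl
  have hanti : Antitone (fun k => (m k).1) := by
    apply antitone_nat_of_succ_le
    intro i
    rw [hm_succ]
    exact hnx1 _ _
  have hdec : ∀ x y : B, ¬ C x yᶜ → ∃ k, (m k).1 ⊓ x = ⊥ ∨ (m k).1 ⊓ yᶜ = ⊥ := by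
    intro x y hxy
    obtain ⟨i, hi⟩ := he (x, y)
    refine ⟨i + 1, ?_⟩
    have := hnx2 (m i) (e i)
    rw [hi] at this
    rw [hm_succ, hi]
    exact this hxy
  have hane : ∀ k, a ⊓ (m k).1 ≠ ⊥ := fun k => (h.ne_bot _ _ (m k).2.2).1
  have hbne : ∀ k, b ⊓ (m k).1 ≠ ⊥ := fun k => (h.ne_bot _ _ (m k).2.2).2
  have hmne : ∀ k l, (m k).1 ⊓ (m l).1 ≠ ⊥ := by
    intro k l hkl
    apply hane (max k l)
    apply le_bot_iff.1
    rw [← hkl]
    exact le_inf (inf_le_right.trans (hanti (le_max_left k l)))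
      (inf_le_right.trans (hanti (le_max_right k l)))
  have hfar : ∀ (u : B) k, u ⊓ (m k).1 = ⊥ → ¬ C u (m k).1 := by
    intro u k hu hc
    have hle : u ≤ (m k).1ᶜ := le_compl_iff_disjoint_right.2 (disjoint_iff.2 hu)
    exact (m k).2.1 (h.symm _ _ (h.mono_left hle hc))
  refine ⟨{u | ∀ k, u ⊓ (m k).1 ≠ ⊥}, ⟨⟨⟨⟨a, hane⟩, ?_, ?_, ?_, ?_⟩, ?_⟩, ?_⟩, hane, hbne⟩
  · intro hb
    exact hb 0 (by simp)
  · intro u v hu huv k hk
    exact hu k (le_bot_iff.1 (hk ▸ inf_le_inf_right _ huv))
  · intro u v huv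
    by_contra hcon
    rw [not_or] at hcon
    obtain ⟨h1, h2⟩ := hcon
    simp only [Set.mem_ofPred_eq, not_forall, not_not] at h1 h2
    obtain ⟨k, hk⟩ := h1
    obtain ⟨l, hl⟩ := h2
    apply huv (max k l)
    rw [inf_sup_right]
    have h1 : u ⊓ (m (max k l)).1 = ⊥ :=
      le_bot_iff.1 (hk ▸ inf_le_inf_left _ (hanti (le_max_left k l)))
    have h2 : v ⊓ (m (max k l)).1 = ⊥ :=
      le_bot_iff.1 (hl ▸ inf_le_inf_left _ (hanti (le_max_right k l)))
    rw [h1, h2, sup_bot_eq]
  · intro u hu v hv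
    by_contra hcon
    have hcon' : ¬ C u (vᶜ)ᶜ := by rwa [compl_compl]
    obtain ⟨k, hk | hk⟩ := hdec u vᶜ hcon'
    · exact hu k (by rw [inf_comm]; exact hk)
    · rw [compl_compl] at hk
      exact hv k (by rw [inf_comm]; exact hk)
  · intro u hu k hk
    exact hfar u k hk (hu _ (fun l => hmne k l))
  · intro u hu
    simp only [Set.mem_ofPred_eq, not_forall, not_not] at hu
    obtain ⟨k, hk⟩ := hu
    refine ⟨(m k).1ᶜ, ?_, ?_⟩
    · simp only [Set.mem_ofPred_eq, not_forall, not_not]
      exact ⟨k, compl_inf_eq_bot⟩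
    · unfold Inside
      rw [compl_compl]
      exact hfar u k hk

end Countable

/-! ### An uncountable algebra without co-ends -/

/-- The uncountable index set. -/
abbrev Idx : Type := Set ℕ

/-- A local state: a level (a natural number or infinity) and two bits. -/
structure Loc : Type where
  lev : Option ℕ
  i : Bool
  j : Bool

/-- The path value of a local state: the sum of the bits. -/
def pv (l : Loc) : ℕ := l.i.toNat + l.j.toNat

/-- Adjacency of local states. -/
def adj (l l' : Loc) : Prop :=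
  l.lev = l'.lev ∧ pv l ≤ pv l' + 1 ∧ pv l' ≤ pv l + 1 ∧ (l.lev ≠ none → l.i = l'.i)

theorem adj_refl (l : Loc) : adj l l := ⟨rfl, Nat.le_succ _, Nat.le_succ _, fun _ => rfl⟩

theorem adj_symm {l l' : Loc} (h : adj l l') : adj l' l :=
  ⟨h.1.symm, h.2.2.1, h.2.1, fun h' => (h.2.2.2 (by rw [h.1]; exact h')).symm⟩

/-- Level at least `K` or infinite. -/
def big (K : ℕ) (l : Loc) : Prop := ∀ k, l.lev = some k → K ≤ k

/-- Local states that cannot be distinguished below level `K`. -/
def eqv (K : ℕ) (l l' : Loc) : Prop := l = l' ∨ (big K l ∧ big K l' ∧ pv l = pv l')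

theorem eqv_refl (K : ℕ) (l : Loc) : eqv K l l := Or.inl rfl

theorem eqv_symm {K : ℕ} {l l' : Loc} (h : eqv K l l') : eqv K l' l := by
  rcases h with h | ⟨h1, h2, h3⟩
  · exact Or.inl h.symm
  · exact Or.inr ⟨h2, h1, h3.symm⟩

theorem eqv_mono {K K' : ℕ} (hK : K ≤ K') {l l' : Loc} (h : eqv K' l l') : eqv K l l' := by
  rcases h with h | ⟨h1, h2, h3⟩
  · exact Or.inl h
  · exact Or.inr ⟨fun k hk => hK.trans (h1 k hk), fun k hk => hK.trans (h2 k hk), h3⟩

/-- Points: families of local states with different finite levels. -/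
structure Pt : Type where
  val : Idx → Loc
  inj : ∀ α β k, (val α).lev = some k → (val β).lev = some k → α = β

/-- Adjacency of points. -/
def Adj (p q : Pt) : Prop := ∀ α, adj (p.1 α) (q.1 α)

theorem Adj_refl (p : Pt) : Adj p p := fun _ => adj_refl _

theorem Adj_symm {p q : Pt} (h : Adj p q) : Adj q p := fun α => adj_symm (h α)

/-- `b` is determined by the coordinates in `F` up to level `K`. -/
def Supp (F : Finset Idx) (K : ℕ) (b : Set Pt) : Prop :=
  ∀ p q : Pt, (∀ α ∈ F, eqv K (p.1 α) (q.1 α)) → p ∈ b → q ∈ b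

theorem Supp.mono {F F' : Finset Idx} {K K' : ℕ} {b : Set Pt} (h : Supp F K b) (hF : F ⊆ F')
    (hK : K ≤ K') : Supp F' K' b :=
  fun p q hpq hp => h p q (fun α hα => eqv_mono hK (hpq α (hF hα))) hp

/-- The Boolean algebra of finitely determined sets. -/
def Alg : BooleanSubalgebra (Set Pt) where
  carrier := {b | ∃ F K, Supp F K b}
  supClosed' := by
    rintro a ⟨F, K, h⟩ b ⟨F', K', h'⟩
    refine ⟨F ∪ F', max K K', ?_⟩
    intro p q hpq hp
    rcases hp with hp | hp
    · exact Or.inl ((h.mono Finset.subset_union_left (le_max_left K K')) p q hpq hp)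
    · exact Or.inr ((h'.mono Finset.subset_union_right (le_max_right K K')) p q hpq hp)
  infClosed' := by
    rintro a ⟨F, K, h⟩ b ⟨F', K', h'⟩
    refine ⟨F ∪ F', max K K', ?_⟩
    intro p q hpq hp
    exact ⟨(h.mono Finset.subset_union_left (le_max_left K K')) p q hpq hp.1,
      (h'.mono Finset.subset_union_right (le_max_right K K')) p q hpq hp.2⟩
  compl_mem' := by
    rintro a ⟨F, K, h⟩
    refine ⟨F, K, ?_⟩
    intro p q hpq hp hq
    exact hp (h q p (fun α hα => eqv_symm (hpq α hα)) hq)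
  bot_mem' := ⟨∅, 0, fun p q _ hp => hp⟩

/-- Contact in `Alg`: two sets are in contact if they contain adjacent points. -/
def Con (a b : Alg) : Prop := ∃ p ∈ (a : Set Pt), ∃ q ∈ (b : Set Pt), Adj p q

theorem alg_ne_bot {a : Alg} {p : Pt} (hp : p ∈ (a : Set Pt)) : a ≠ ⊥ := by
  rintro rfl
  exact hp

theorem mem_inf {a b : Alg} {p : Pt} : p ∈ ((a ⊓ b : Alg) : Set Pt) ↔ p ∈ (a : Set Pt) ∧ p ∈ (b : Set Pt) :=
  Iff.rfl

theorem mem_sup {a b : Alg} {p : Pt} : p ∈ ((a ⊔ b : Alg) : Set Pt) ↔ p ∈ (a : Set Pt) ∨ p ∈ (b : Set Pt) :=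
  Iff.rfl

theorem mem_compl {a : Alg} {p : Pt} : p ∈ ((aᶜ : Alg) : Set Pt) ↔ p ∉ (a : Set Pt) :=
  Iff.rfl

theorem exists_of_ne_bot {a : Alg} (h : a ≠ ⊥) : ∃ p, p ∈ (a : Set Pt) := by
  by_contra hcon
  apply h
  apply Subtype.ext
  apply Set.eq_empty_iff_forall_notMem.2
  intro p hp
  exact hcon ⟨p, hp⟩

theorem isContact_Con : IsContact Con where
  ne_bot := by
    rintro a b ⟨p, hp, q, hq, _⟩
    exact ⟨alg_ne_bot hp, alg_ne_bot hq⟩
  sup_iff := by
    intro a b c
    constructor
    · rintro ⟨p, hp, q, hq | hq, hpq⟩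
      · exact Or.inl ⟨p, hp, q, hq, hpq⟩
      · exact Or.inr ⟨p, hp, q, hq, hpq⟩
    · rintro (⟨p, hp, q, hq, hpq⟩ | ⟨p, hp, q, hq, hpq⟩)
      · exact ⟨p, hp, q, Or.inl hq, hpq⟩
      · exact ⟨p, hp, q, Or.inr hq, hpq⟩
  symm := by
    rintro a b ⟨p, hp, q, hq, hpq⟩
    exact ⟨q, hq, p, hp, Adj_symm hpq⟩
  of_inf := by
    intro a b h
    obtain ⟨p, hp⟩ := exists_of_ne_bot h
    exact ⟨p, hp.1, p, hp.2, Adj_refl p⟩

/-- The default local state. -/
def dflt : Loc := ⟨none, false, false⟩

open Classical in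
/-- Keep the coordinates in `F` and reset the other ones. -/
noncomputable def cut (F : Finset Idx) (p : Pt) : Pt :=
  ⟨fun α => if α ∈ F then p.1 α else dflt, by
    intro α β k h1 h2
    by_cases hα : α ∈ F
    · by_cases hβ : β ∈ F
      · rw [if_pos hα] at h1
        rw [if_pos hβ] at h2
        exact p.2 α β k h1 h2
      · rw [if_neg hβ] at h2
        simp [dflt] at h2
    · rw [if_neg hα] at h1
      simp [dflt] at h1⟩

theorem cut_mem {F : Finset Idx} {p : Pt} {α : Idx} (h : α ∈ F) : (cut F p).1 α = p.1 α := by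
  simp [cut, h]

theorem cut_notMem {F : Finset Idx} {p : Pt} {α : Idx} (h : α ∉ F) : (cut F p).1 α = dflt := by
  simp [cut, h]

/-- Resolution of adjacent local states at infinity. -/
theorem resolve (K N : ℕ) (hN : K ≤ N) (l l' : Loc) (h : adj l l') :
    ∃ m m' : Loc, adj m m' ∧ eqv K l m ∧ eqv K l' m' ∧ m.lev ≠ none ∧
      (l.lev ≠ none → m = l) ∧ (l.lev = none → m.lev = some N) := by
  by_cases hl : l.lev = none
  · have hl' : l'.lev = none := by rw [← h.1]; exact hl
    have key : ∀ a b a' b' : Bool, a.toNat + b.toNat ≤ a'.toNat + b'.toNat + 1 →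
        a'.toNat + b'.toNat ≤ a.toNat + b.toNat + 1 →
        ∃ i c c' : Bool, i.toNat + c.toNat = a.toNat + b.toNat ∧
          i.toNat + c'.toNat = a'.toNat + b'.toNat := by decide
    obtain ⟨i, c, c', h1, h2⟩ := key l.i l.j l'.i l'.j h.2.1 h.2.2.1
    have hb : ∀ x : Loc, x.lev = none → big K x := by
      intro x hx k hk
      rw [hx] at hk
      exact absurd hk (by simp)
    have hb' : ∀ i c, big K ⟨some N, i, c⟩ := by
      intro i c k hk
      have : N = k := by simpa using hk
      omega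
    refine ⟨⟨some N, i, c⟩, ⟨some N, i, c'⟩, ⟨rfl, ?_, ?_, fun _ => rfl⟩,
      Or.inr ⟨hb l hl, hb' _ _, ?_⟩, Or.inr ⟨hb l' hl', hb' _ _, ?_⟩, by simp,
      fun h' => absurd hl h', fun _ => rfl⟩
    · have := h.2.1
      simp only [pv] at this ⊢
      omega
    · have := h.2.2.1
      simp only [pv] at this ⊢
      omega
    · simp only [pv]; omega
    · simp only [pv]; omega
  · exact ⟨l, l', h, eqv_refl _ _, eqv_refl _ _, hl, fun _ => rfl, fun h' => absurd h' hl⟩

/-- A finite family of levels is bounded. -/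
theorem exists_bound (F : Finset Idx) (p : Idx → Loc) (K : ℕ) :
    ∃ M, K ≤ M ∧ ∀ α ∈ F, ∀ k, (p α).lev = some k → k < M := by
  refine ⟨K + (F.sup (fun α => (p α).lev.getD 0)) + 1, by omega, ?_⟩
  intro α hα k hk
  have h1 : (fun α => (p α).lev.getD 0) α ≤ F.sup (fun α => (p α).lev.getD 0) :=
    Finset.le_sup (f := fun α => (p α).lev.getD 0) hα
  simp only [hk, Option.getD_some] at h1
  omega

open Classical in
/-- Adjacent points can be moved to adjacent points with finite levels on `F`. -/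
theorem resolve_points (F : Finset Idx) (K : ℕ) (p q : Pt) (h : Adj p q) :
    ∃ p' q' : Pt, Adj p' q' ∧ (∀ α ∈ F, eqv K (p.1 α) (p'.1 α)) ∧
      (∀ α ∈ F, eqv K (q.1 α) (q'.1 α)) ∧ (∀ α ∈ F, (p'.1 α).lev ≠ none) := by
  obtain ⟨M, hKM, hM⟩ := exists_bound F p.1 K
  obtain ⟨g, hg⟩ := Set.countable_iff_exists_injOn.1 (F.finite_toSet.countable)
  have hres := fun α => resolve K (M + g α) (by omega) (p.1 α) (q.1 α) (h α)
  choose m m' h1 h2 h3 h4 h5 h6 using hres
  have hinj : ∀ α β k, α ∈ F → β ∈ F → (m α).lev = some k → (m β).lev = some k → α = β := by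
    intro α β k hα hβ hk1 hk2
    by_cases c1 : (p.1 α).lev = none
    · by_cases c2 : (p.1 β).lev = none
      · rw [h6 α c1] at hk1
        rw [h6 β c2] at hk2
        have e1 : M + g α = k := by simpa using hk1
        have e2 : M + g β = k := by simpa using hk2
        exact hg hα hβ (by omega)
      · rw [h6 α c1] at hk1
        rw [h5 β c2] at hk2
        have e1 : M + g α = k := by simpa using hk1
        have e2 := hM β hβ k hk2
        omega
    · by_cases c2 : (p.1 β).lev = none
      · rw [h5 α c1] at hk1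
        rw [h6 β c2] at hk2
        have e1 : M + g β = k := by simpa using hk2
        have e2 := hM α hα k hk1
        omega
      · rw [h5 α c1] at hk1
        rw [h5 β c2] at hk2
        exact p.2 α β k hk1 hk2
  have hout : ∀ (f : Idx → Loc) (α : Idx) (k : ℕ),
      (if α ∈ F then f α else dflt).lev = some k → α ∈ F ∧ (f α).lev = some k := by
    intro f α k hk
    by_cases hα : α ∈ F
    · rw [if_pos hα] at hk
      exact ⟨hα, hk⟩
    · rw [if_neg hα] at hk
      simp [dflt] at hk
  refine ⟨⟨fun α => if α ∈ F then m α else dflt, ?_⟩, ⟨fun α => if α ∈ F then m' α else dflt, ?_⟩,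
    ?_, ?_, ?_, ?_⟩
  · intro α β k hk1 hk2
    obtain ⟨a1, a2⟩ := hout m α k hk1
    obtain ⟨b1, b2⟩ := hout m β k hk2
    exact hinj α β k a1 b1 a2 b2
  · intro α β k hk1 hk2
    obtain ⟨a1, a2⟩ := hout m' α k hk1
    obtain ⟨b1, b2⟩ := hout m' β k hk2
    exact hinj α β k a1 b1 (by rw [(h1 α).1]; exact a2) (by rw [(h1 β).1]; exact b2)
  · intro α
    by_cases hα : α ∈ F
    · simp only [hα, if_true]
      exact h1 α
    · simp only [hα, if_false]
      exact adj_refl _
  · intro α hα
    simp only [hα, if_true]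
    exact h2 α
  · intro α hα
    simp only [hα, if_true]
    exact h3 α
  · intro α hα
    simp only [hα, if_true]
    exact h4 α

theorem adj_of_finite {l l' : Loc} (h1 : l.lev = l'.lev) (h2 : l.i = l'.i) : adj l l' := by
  refine ⟨h1, ?_, ?_, fun _ => h2⟩
  · have := Bool.toNat_le l.j
    simp only [pv, h2]
    omega
  · have := Bool.toNat_le l'.j
    simp only [pv, h2]
    omega

theorem dag_Con : Dag Con := by
  rintro a b x y ⟨p, hp, q, hq, hpq⟩ hxy
  obtain ⟨Fa, Ka, ha⟩ := a.2
  obtain ⟨Fb, Kb, hb⟩ := b.2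
  obtain ⟨Fx, Kx, hx⟩ := x.2
  obtain ⟨Fy, Ky, hy⟩ := (yᶜ : Alg).2
  classical
  obtain ⟨F, K, ha, hb, hx, hy⟩ : ∃ F K, Supp F K (a : Set Pt) ∧ Supp F K (b : Set Pt) ∧
      Supp F K (x : Set Pt) ∧ Supp F K ((yᶜ : Alg) : Set Pt) := by
    refine ⟨Fa ∪ Fb ∪ Fx ∪ Fy, Ka + Kb + Kx + Ky, ha.mono ?_ (by omega), hb.mono ?_ (by omega),
      hx.mono ?_ (by omega), hy.mono ?_ (by omega)⟩ <;>
    · intro z hz
      simp only [Finset.mem_union]
      tauto
  obtain ⟨p', q', hadj, hp', hq', hfin⟩ := resolve_points F K p q hpq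
  have hp'a : p' ∈ (a : Set Pt) := ha p p' hp' hp
  have hq'b : q' ∈ (b : Set Pt) := hb q q' hq' hq
  obtain ⟨M, hKM, hM⟩ := exists_bound F p'.1 K
  let n0 : Set Pt := {r | ∀ α ∈ F, (r.1 α).lev = (p'.1 α).lev ∧ (r.1 α).i = (p'.1 α).i}
  have hn0 : Supp F M n0 := by
    intro r r' hrr hr α hα
    rcases hrr α hα with he | ⟨hbig, _, _⟩
    · rw [← he]
      exact hr α hα
    · exfalso
      cases hk : (p'.1 α).lev with
      | none => exact hfin α hα hk
      | some k =>
        have h1 := hM α hα k hk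
        have h2 := hbig k (by rw [(hr α hα).1]; exact hk)
        omega
  let n : Alg := ⟨n0, F, M, hn0⟩
  have hnmem : ∀ r : Pt, r ∈ (n : Set Pt) ↔
      ∀ α ∈ F, (r.1 α).lev = (p'.1 α).lev ∧ (r.1 α).i = (p'.1 α).i := fun r => Iff.rfl
  refine ⟨n, ?_, ?_, ?_⟩
  · rintro ⟨r, hr, r', hr', hrr⟩
    rw [mem_compl] at hr'
    apply hr'
    rw [hnmem] at hr ⊢
    intro α hα
    have h1 := hrr α
    refine ⟨by rw [← h1.1]; exact (hr α hα).1, ?_⟩
    rw [← h1.2.2.2 (by rw [(hr α hα).1]; exact hfin α hα)]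
    exact (hr α hα).2
  · by_contra hcon
    rw [not_or] at hcon
    obtain ⟨r, hr⟩ := exists_of_ne_bot hcon.1
    obtain ⟨t, ht⟩ := exists_of_ne_bot hcon.2
    rw [mem_inf, hnmem] at hr ht
    apply hxy
    refine ⟨cut F r, ?_, cut F t, ?_, ?_⟩
    · refine hx r (cut F r) ?_ hr.2
      intro α hα
      rw [cut_mem hα]
      exact eqv_refl _ _
    · refine hy t (cut F t) ?_ ht.2
      intro α hα
      rw [cut_mem hα]
      exact eqv_refl _ _
    · intro α
      by_cases hα : α ∈ F
      · rw [cut_mem hα, cut_mem hα]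
        exact adj_of_finite (by rw [(hr.1 α hα).1, (ht.1 α hα).1])
          (by rw [(hr.1 α hα).2, (ht.1 α hα).2])
      · rw [cut_notMem hα, cut_notMem hα]
        exact adj_refl _
  · refine ⟨p', ⟨hp'a, ?_⟩, q', ⟨hq'b, ?_⟩, hadj⟩
    · intro α hα
      exact ⟨rfl, rfl⟩
    · intro α hα
      have h1 := hadj α
      exact ⟨h1.1.symm, (h1.2.2.2 (hfin α hα)).symm⟩

/-- The element: the level of `α` is `k`. -/
def cel (α : Idx) (k : ℕ) : Alg :=
  ⟨{p | (p.1 α).lev = some k}, {α}, k + 1, by
    intro p q hpq hp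
    rcases hpq α (Finset.mem_singleton_self α) with h | ⟨h, _, _⟩
    · have hp' : (p.1 α).lev = some k := hp
      show (q.1 α).lev = some k
      rw [← h]
      exact hp'
    · have := h k hp
      omega⟩

/-- The element: the path value of `α` is `v`. -/
def wel (α : Idx) (v : ℕ) : Alg :=
  ⟨{p | pv (p.1 α) = v}, {α}, 0, by
    intro p q hpq hp
    have hp' : pv (p.1 α) = v := hp
    show pv (q.1 α) = v
    rcases hpq α (Finset.mem_singleton_self α) with h | ⟨_, _, h⟩
    · rw [← h]; exact hp'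
    · rw [← h]; exact hp'⟩

open Classical in
/-- Replace the coordinate `α` by an infinite one. -/
noncomputable def upd (p : Pt) (α : Idx) (i j : Bool) : Pt :=
  ⟨fun β => if β = α then ⟨none, i, j⟩ else p.1 β, by
    intro β γ k h1 h2
    by_cases hβ : β = α
    · rw [if_pos hβ] at h1
      simp at h1
    · by_cases hγ : γ = α
      · rw [if_pos hγ] at h2
        simp at h2
      · rw [if_neg hβ] at h1
        rw [if_neg hγ] at h2
        exact p.2 β γ k h1 h2⟩

theorem upd_same (p : Pt) (α : Idx) (i j : Bool) : (upd p α i j).1 α = ⟨none, i, j⟩ := by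
  simp [upd]

theorem upd_ne (p : Pt) {α β : Idx} (h : β ≠ α) (i j : Bool) : (upd p α i j).1 β = p.1 β := by
  simp [upd, h]

theorem upd_adj (p : Pt) (α : Idx) (i j i' j' : Bool)
    (h1 : i.toNat + j.toNat ≤ i'.toNat + j'.toNat + 1)
    (h2 : i'.toNat + j'.toNat ≤ i.toNat + j.toNat + 1) : Adj (upd p α i j) (upd p α i' j') := by
  intro β
  by_cases h : β = α
  · subst h
    rw [upd_same, upd_same]
    exact ⟨rfl, h1, h2, fun h' => absurd rfl h'⟩
  · rw [upd_ne p h, upd_ne p h]
    exact adj_refl _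

/-- If a co-end contains no `cel α k`, then it contains both end sets of the path at `α`. -/
theorem wel_mem {G : Set Alg} (hG : IsCoEnd Con G) (α : Idx) (hc : ∀ k, cel α k ∉ G)
    (e : Bool) : wel α (e.toNat + e.toNat) ∈ G := by
  by_contra hx
  obtain ⟨b, hb, hxb⟩ := hG.round _ hx
  obtain ⟨d, hd, hbd⟩ := hG.round _ hb
  obtain ⟨F, K, hS⟩ := d.2
  -- finitely many of the `cel α k` do not fill up
  have hfin : ∀ N, ∃ u : Alg, u ∉ G ∧ ∀ p : Pt, p ∉ (u : Set Pt) →
      p ∉ (d : Set Pt) ∧ ∀ k < N, (p.1 α).lev ≠ some k := by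
    intro N
    induction N with
    | zero => exact ⟨d, hd, fun p hp => ⟨hp, fun k hk => absurd hk (Nat.not_lt_zero k)⟩⟩
    | succ N ih =>
      obtain ⟨u, hu, hu2⟩ := ih
      refine ⟨u ⊔ cel α N, ?_, ?_⟩
      · intro hmem
        rcases hG.cluster.clan.prime _ _ hmem with h | h
        · exact hu h
        · exact hc N h
      · intro p hp
        rw [mem_sup, not_or] at hp
        obtain ⟨h1, h2⟩ := hu2 p hp.1
        refine ⟨h1, ?_⟩
        intro k hk
        rcases Nat.lt_succ_iff_lt_or_eq.1 hk with h | h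
        · exact h2 k h
        · rw [h]; exact hp.2
  obtain ⟨u, hu, hu2⟩ := hfin K
  have huc : ∃ p : Pt, p ∉ (u : Set Pt) := by
    by_contra hcon
    push Not at hcon
    obtain ⟨g, hg⟩ := hG.cluster.clan.nonempty
    apply hu
    apply hG.cluster.clan.up g u hg
    intro p _
    exact hcon p
  obtain ⟨p, hp⟩ := huc
  obtain ⟨hpd, hplev⟩ := hu2 p hp
  -- the point at infinity
  have hq : upd p α (p.1 α).i (p.1 α).j ∉ (d : Set Pt) := by
    intro hmem
    apply hpd
    refine hS _ p ?_ hmem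
    intro β hβ
    by_cases h : β = α
    · subst h
      rw [upd_same]
      refine Or.inr ⟨?_, ?_, rfl⟩
      · intro k hk
        simp at hk
      · intro k hk
        by_contra hlt
        exact hplev k (by omega) hk
    · rw [upd_ne p h]
      exact eqv_refl _ _
  apply hq
  -- the middle point and the end point
  have h1 : upd p α e (!e) ∈ (b : Set Pt) := by
    by_contra hnot
    apply hxb
    refine ⟨upd p α e e, ?_, upd p α e (!e), hnot, ?_⟩
    · show pv ((upd p α e e).1 α) = _
      rw [upd_same]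
      rfl
    · apply upd_adj <;> cases e <;> simp
  by_contra hnot
  apply hbd
  refine ⟨upd p α e (!e), h1, upd p α (p.1 α).i (p.1 α).j, hnot, ?_⟩
  apply upd_adj <;> cases e <;> cases (p.1 α).i <;> cases (p.1 α).j <;> simp

theorem cel_clopen (α : Idx) (k : ℕ) : ¬ Con (cel α k) (cel α k)ᶜ := by
  rintro ⟨p, hp, q, hq, hpq⟩
  apply hq
  have hp' : (p.1 α).lev = some k := hp
  show (q.1 α).lev = some k
  rw [← (hpq α).1]
  exact hp'

theorem not_reg_Con : ¬ Reg Con := by
  intro hR
  have h0 : Con ⊤ ⊤ := by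
    let p : Pt := ⟨fun _ => dflt, by
      intro α β k h
      simp [dflt] at h⟩
    exact ⟨p, trivial, p, trivial, Adj_refl p⟩
  obtain ⟨G, hG, _, _⟩ := hR ⊤ ⊤ h0
  have hex : ∀ α : Idx, ∃ k, (cel α k)ᶜ ∉ G := by
    intro α
    by_contra hcon
    push Not at hcon
    have hc : ∀ k, cel α k ∉ G := by
      intro k hk
      exact cel_clopen α k (hG.cluster.clan.contact _ hk _ (hcon k))
    have h1 := wel_mem hG α hc false
    have h2 := wel_mem hG α hc true
    obtain ⟨p, hp, q, hq, hpq⟩ := hG.cluster.clan.contact _ h1 _ h2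
    have hp' : pv (p.1 α) = 0 := hp
    have hq' : pv (q.1 α) = 2 := hq
    have := (hpq α).2.2.1
    omega
  choose f hf using hex
  apply Function.cantor_injective f
  intro α β hαβ
  by_contra hne
  have h1 := hf α
  have h2 := hf β
  rw [← hαβ] at h2
  have htop : (cel α (f α))ᶜ ⊔ (cel β (f α))ᶜ = (⊤ : Alg) := by
    apply top_le_iff.1
    intro p _
    by_contra hnot
    rw [mem_sup, mem_compl, mem_compl, not_or, not_not, not_not] at hnot
    exact hne (p.2 α β (f α) hnot.1 hnot.2)
  obtain ⟨g, hg⟩ := hG.cluster.clan.nonempty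
  have := hG.cluster.clan.up g ⊤ hg le_top
  rw [← htop] at this
  rcases hG.cluster.clan.prime _ _ this with h | h
  · exact h1 h
  · exact h2 h

/-! ### Passing to a countable elementary substructure -/

open FirstOrder.Language

/-- The existential formula of `Dag` (free variables `a, b, x, y`; bound variable `n`). -/
def theta : CL.Formula (Fin 4) :=
  let v : Fin 4 → CL.Term (Fin 4 ⊕ Fin 1) := fun i => Term.var (Sum.inl i)
  let n : CL.Term (Fin 4 ⊕ Fin 1) := Term.var (Sum.inr 0)
  let st : CL.Term (Fin 4 ⊕ Fin 1) → CL.Term (Fin 4 ⊕ Fin 1) := fun t =>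
    Functions.apply₁ (L := CL) Fn.star t
  let mt : CL.Term (Fin 4 ⊕ Fin 1) → CL.Term (Fin 4 ⊕ Fin 1) → CL.Term (Fin 4 ⊕ Fin 1) := fun s t =>
    Functions.apply₂ (L := CL) Fn.meet s t
  let zr : CL.Term (Fin 4 ⊕ Fin 1) := Term.func (L := CL) Fn.zero (fun i => Fin.elim0 i)
  let ct : CL.Term (Fin 4 ⊕ Fin 1) → CL.Term (Fin 4 ⊕ Fin 1) → CL.BoundedFormula (Fin 4) 1 := fun s t =>
    Relations.boundedFormula₂ (L := CL) Rl.contact s t
  BoundedFormula.ex ((∼(ct n (st n))) ⊓
    ((Term.bdEqual (mt n (v 2)) zr ⊔ Term.bdEqual (mt n (st (v 3))) zr) ⊓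
      ct (mt (v 0) n) (mt (v 1) n)))

section Realize

theorem funMap_zero {B : Type} [BooleanAlgebra B] (C : B → B → Prop) (v : Fin 0 → B) :
    @Structure.funMap CL B (str C) 0 Fn.zero v = ⊥ := rfl

theorem funMap_star {B : Type} [BooleanAlgebra B] (C : B → B → Prop) (v : Fin 1 → B) :
    @Structure.funMap CL B (str C) 1 Fn.star v = (v 0)ᶜ := rfl

theorem funMap_meet {B : Type} [BooleanAlgebra B] (C : B → B → Prop) (v : Fin 2 → B) :
    @Structure.funMap CL B (str C) 2 Fn.meet v = v 0 ⊓ v 1 := rfl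

theorem relMap_contact {B : Type} [BooleanAlgebra B] (C : B → B → Prop) (v : Fin 2 → B) :
    @Structure.RelMap CL B (str C) 2 Rl.contact v = C (v 0) (v 1) := rfl

theorem realize_theta {B : Type} [BooleanAlgebra B] (C : B → B → Prop) (v : Fin 4 → B) :
    @Formula.Realize CL B (str C) (Fin 4) theta v ↔
      ∃ n, ¬ C n nᶜ ∧ (n ⊓ v 2 = ⊥ ∨ n ⊓ (v 3)ᶜ = ⊥) ∧ C (v 0 ⊓ n) (v 1 ⊓ n) := by
  let _ := str C
  unfold theta Formula.Realize
  rw [BoundedFormula.realize_ex]
  apply exists_congr
  intro n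
  rw [BoundedFormula.realize_inf, BoundedFormula.realize_inf, BoundedFormula.realize_not,
    BoundedFormula.realize_sup, BoundedFormula.realize_bdEqual, BoundedFormula.realize_bdEqual,
    BoundedFormula.realize_rel₂, BoundedFormula.realize_rel₂]
  rfl

end Realize

/-- The restriction of the contact relation to a Boolean subalgebra. -/
def restr {B : Type} [BooleanAlgebra B] (C : B → B → Prop) (S : BooleanSubalgebra B) : S → S → Prop :=
  fun a b => C a b

theorem IsContact.restr {B : Type} [BooleanAlgebra B] {C : B → B → Prop} (h : IsContact C)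
    (S : BooleanSubalgebra B) : IsContact (restr C S) where
  ne_bot := by
    intro a b hab
    obtain ⟨h1, h2⟩ := h.ne_bot _ _ hab
    exact ⟨fun h' => h1 (by rw [h']; rfl), fun h' => h2 (by rw [h']; rfl)⟩
  sup_iff := fun a b c => h.sup_iff a b c
  symm := fun a b hab => h.symm _ _ hab
  of_inf := by
    intro a b hab
    apply h.of_inf
    intro h'
    exact hab (Subtype.ext h')

/-- The Boolean subalgebra underlying a substructure. -/
def subalg {B : Type} [BooleanAlgebra B] (C : B → B → Prop)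
    (S : @Language.Substructure CL B (str C)) : BooleanSubalgebra B where
  carrier := {x | x ∈ S}
  supClosed' := by
    let _ := str C
    intro a ha b hb
    exact S.fun_mem (n := 2) Fn.join ![a, b] (by
      intro i
      fin_cases i
      · exact ha
      · exact hb)
  infClosed' := by
    let _ := str C
    intro a ha b hb
    exact S.fun_mem (n := 2) Fn.meet ![a, b] (by
      intro i
      fin_cases i
      · exact ha
      · exact hb)
  compl_mem' := by
    let _ := str C
    intro a ha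
    exact S.fun_mem (n := 1) Fn.star ![a] (by
      intro i
      fin_cases i
      exact ha)
  bot_mem' := by
    let _ := str C
    exact S.fun_mem (n := 0) Fn.zero ![] (by
      intro i
      exact Fin.elim0 i)

theorem countable_symbols : CL.card ≤ Cardinal.aleph0 := by
  have h1 : ∀ n, Countable (Fn n) := by
    intro n
    have : Function.Injective (fun f : Fn n => (match f with
        | Fn.zero => 0 | Fn.one => 1 | Fn.star => 2 | Fn.join => 3 | Fn.meet => 4 : ℕ)) := by
      intro f g hfg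
      cases f <;> cases g <;> first | rfl | (simp at hfg)
    exact this.countable
  have h2 : ∀ n, Countable (Rl n) := by
    intro n
    have : Function.Injective (fun f : Rl n => (0 : ℕ)) := by
      intro f g hfg
      cases f
      cases g
      rfl
    exact this.countable
  have h3 : Countable ((Σ l, Fn l) ⊕ (Σ l, Rl l)) := inferInstance
  exact Cardinal.mk_le_aleph0_iff.2 h3

theorem infinite_Alg : Infinite Alg := by
  apply Infinite.of_injective (fun k : ℕ => cel ∅ k)
  intro k l hkl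
  have hkl' : cel ∅ k = cel ∅ l := hkl
  classical
  let p : Pt := ⟨fun α => if α = ∅ then ⟨some k, false, false⟩ else dflt, by
    intro α β m h1 h2
    by_cases hα : α = ∅
    · by_cases hβ : β = ∅
      · rw [hα, hβ]
      · rw [if_neg hβ] at h2
        simp [dflt] at h2
    · rw [if_neg hα] at h1
      simp [dflt] at h1⟩
  have hp : p ∈ (cel ∅ k : Set Pt) := by
    show (p.1 ∅).lev = some k
    simp [p]
  rw [hkl'] at hp
  have hp' : (p.1 ∅).lev = some l := hp
  simpa [p] using hp'

/-- For every first-order theory in the language of contact algebras (in particular for every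
sentence) there is a contact algebra in which exactly one of the theory and (Reg) holds. -/
theorem result (T : CL.Theory) : ∃ (B : Type) (_ : BooleanAlgebra B) (C : B → B → Prop),
    IsContact C ∧ ¬ ((@Theory.Model CL B (str C) T) ↔ Reg C) := by
  by_contra hcon
  have hall : ∀ (B : Type) (_ : BooleanAlgebra B) (C : B → B → Prop), IsContact C →
      ((@Theory.Model CL B (str C) T) ↔ Reg C) := by
    intro B iB C hC
    by_contra h
    exact hcon ⟨B, iB, C, hC, h⟩
  let i0 : CL.Structure Alg := str Con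
  have hinf := infinite_Alg
  obtain ⟨S, _, hS⟩ := exists_elementarySubstructure_card_eq CL (M := Alg) ∅ Cardinal.aleph0.{0}
    le_rfl (by simp) (by
      rw [Cardinal.lift_le]
      exact countable_symbols) (by
      rw [Cardinal.lift_le]
      exact Cardinal.infinite_iff.1 hinf)
  have hSc : Countable S := by
    rw [Cardinal.lift_inj] at hS
    exact Cardinal.mk_le_aleph0_iff.1 hS.le
  let A : BooleanSubalgebra Alg := subalg Con S.toSubstructure
  let iA : CL.Structure A := str (restr Con A)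
  let e : A ≃[CL] S :=
    { toFun := fun x => ⟨x.1, x.2⟩
      invFun := fun x => ⟨x.1, x.2⟩
      left_inv := fun x => rfl
      right_inv := fun x => rfl
      map_fun' := by
        intro n f v
        apply Subtype.ext
        cases f <;> rfl
      map_rel' := by
        intro n r v
        cases r
        exact Iff.rfl }
  have hAc : Countable A := e.toEquiv.countable_iff.2 hSc
  have hdag : Dag (restr Con A) := by
    intro a b x y hab hxy
    have h1 : theta.Realize (M := A) ![a, b, x, y] ↔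
        theta.Realize (M := Alg) ![(a : Alg), b, x, y] := by
      rw [← StrongHomClass.realize_formula e, ← S.subtype.map_formula]
      have : (S.subtype ∘ (e ∘ ![a, b, x, y])) = ![(a : Alg), b, x, y] := by
        funext i
        fin_cases i <;> rfl
      rw [this]
    have h2 := (realize_theta Con ![(a : Alg), b, x, y]).2 (dag_Con a b x y hab hxy)
    exact (realize_theta (restr Con A) ![a, b, x, y]).1 (h1.2 h2)
  have hcA := isContact_Con.restr A
  have hRA : Reg (restr Con A) := reg_of_countable hcA hdag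
  have hTA : A ⊨ T := (hall A inferInstance (restr Con A) hcA).2 hRA
  have hTS : S ⊨ T := StrongHomClass.theory_model e
  have hTAlg : Alg ⊨ T := (S.theory_model_iff T).1 hTS
  exact not_reg_Con ((hall Alg inferInstance Con isContact_Con).1 hTAlg)

end Pool.Agent.Results.MP_50aa38_lc.NotFirstOrder
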